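import Mathlib

/-!
# MP_efb25f_co: cube antichains of maximal codimension-one Hausdorff measure

Idea: let `F : ℝ → (0,1)` be a continuous strictly increasing bijection whose Stieltjes measure is
concentrated on a set `E'` such that no `n` elements of `E'` sum to zero (a countable union of
translates of a thin Cantor set).  The antichain `{(F t_1, ..., F t_n) : ∑ t_i = 0}` contains the
disjoint pieces `{t_i ∈ E' for all i ≠ j}`, each of which projects onto almost all of a facet.
-/

open MeasureTheory Set Filter Topology ProbabilityTheory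
open scoped ENNReal NNReal

namespace Pool.Agent.Results.MP_efb25f_co.MaximalAntichain

/-- An `n`-cube antichain. -/
def IsCubeAntichain (n : ℕ) (S : Set (EuclideanSpace ℝ (Fin n))) : Prop :=
  (∀ x ∈ S, ∀ i, 0 ≤ x i ∧ x i ≤ 1) ∧ ∀ x ∈ S, ∀ y ∈ S, (∀ i, x i ≤ y i) → x = y

/-- The facet `x_j = 0` of the unit cube. -/
def facet (n : ℕ) (j : Fin n) : Set (EuclideanSpace ℝ (Fin n)) :=
  {x | (∀ i, 0 ≤ x i ∧ x i ≤ 1) ∧ x j = 0}

/-- base `b = 2n+2`, `c = 1/b` -/
noncomputable def cc (n : ℕ) : ℝ := 1 / (2 * n + 2)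

lemma cc_pos (n : ℕ) : 0 < cc n := by unfold cc; positivity
lemma cc_lt (n : ℕ) (hn : 1 ≤ n) : cc n < 1 / 2 := by
  unfold cc
  have : (1 : ℝ) ≤ n := by exact_mod_cast hn
  rw [div_lt_div_iff₀ (by positivity) (by norm_num)]
  linarith

/-- the Cantor set points -/
noncomputable def yy (n : ℕ) (ω : ℕ → Bool) : ℝ := 1 / (2 * n + 1) + cc n * Cardinal.cantorFunction (cc n) ω

lemma cf_nonneg (n : ℕ) (ω : ℕ → Bool) : 0 ≤ Cardinal.cantorFunction (cc n) ω :=
  tsum_nonneg fun _ => Cardinal.cantorFunctionAux_nonneg (cc_pos n).le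

lemma cf_le (n : ℕ) (hn : 1 ≤ n) (ω : ℕ → Bool) : Cardinal.cantorFunction (cc n) ω ≤ (2 * n + 2) / (2 * n + 1) := by
  have hc1 : cc n < 1 := by have := cc_lt n hn; linarith
  have h1 : Cardinal.cantorFunction (cc n) ω ≤ ∑' k : ℕ, (cc n) ^ k := by
    unfold Cardinal.cantorFunction
    refine Summable.tsum_le_tsum (fun k => ?_) (Cardinal.summable_cantor_function _ (cc_pos n).le hc1)
      (summable_geometric_of_lt_one (cc_pos n).le hc1)
    unfold Cardinal.cantorFunctionAux
    cases ω k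
    · simp only [cond_false]; have := cc_pos n; positivity
    · simp
  rw [tsum_geometric_of_lt_one (cc_pos n).le hc1] at h1
  refine h1.trans (le_of_eq ?_)
  unfold cc
  have : (2 * (n:ℝ) + 2) ≠ 0 := by positivity
  have h3 : (2 * (n:ℝ) + 1) ≠ 0 := by positivity
  have h4 : 1 - 1 / (2 * (n:ℝ) + 2) = (2 * n + 1) / (2 * n + 2) := by field_simp; ring
  rw [h4, inv_div]

lemma yy_lb (n : ℕ) (ω : ℕ → Bool) : 1 / (2 * (n:ℝ) + 1) ≤ yy n ω := by
  unfold yy
  have := mul_nonneg (cc_pos n).le (cf_nonneg n ω)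
  linarith

lemma yy_ub (n : ℕ) (hn : 1 ≤ n) (ω : ℕ → Bool) : yy n ω ≤ 2 / (2 * (n:ℝ) + 1) := by
  unfold yy
  have h := mul_le_mul_of_nonneg_left (cf_le n hn ω) (cc_pos n).le
  have e : cc n * ((2 * n + 2) / (2 * n + 1)) = 1 / (2 * (n:ℝ) + 1) := by
    unfold cc
    field_simp
  have e2 : 2 / (2 * (n:ℝ) + 1) = 1 / (2 * (n:ℝ) + 1) + 1 / (2 * (n:ℝ) + 1) := by ring
  rw [e] at h
  linarith

lemma yy_shift (n : ℕ) (hn : 1 ≤ n) (ω : ℕ → Bool) :
    ∃ z : ℤ, (2 * (n:ℝ) + 2) * yy n ω = z + yy n (fun k => ω (k + 1)) := by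
  have hc1 : cc n < 1 := by have := cc_lt n hn; linarith
  have hs := Cardinal.cantorFunction_succ ω (cc_pos n).le hc1
  have e1 : (2 * (n:ℝ) + 2) * cc n = 1 := by unfold cc; field_simp
  have e2 : (2 * (n:ℝ) + 2) * (1 / (2 * n + 1)) = 1 + 1 / (2 * n + 1) := by
    have : (2 * (n:ℝ) + 1) ≠ 0 := by positivity
    field_simp; ring
  refine ⟨1 + cond (ω 0) 1 0, ?_⟩
  unfold yy
  rw [mul_add, e2, ← mul_assoc, e1, one_mul, hs]
  cases ω 0 <;> simp <;> ring

lemma yy_iter (n : ℕ) (hn : 1 ≤ n) (m : ℕ) : ∀ ω : ℕ → Bool,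
    ∃ (z : ℤ) (ω' : ℕ → Bool), (2 * (n:ℝ) + 2) ^ m * yy n ω = z + yy n ω' := by
  induction m with
  | zero => intro ω; exact ⟨0, ω, by simp⟩
  | succ m ih =>
    intro ω
    obtain ⟨z, ω', h⟩ := ih ω
    obtain ⟨z', h'⟩ := yy_shift n hn ω'
    refine ⟨(2 * n + 2) * z + z', fun k => ω' (k + 1), ?_⟩
    rw [pow_succ', mul_assoc, h, mul_add, h']
    push_cast
    ring

/-- the set `E'` -/
def EE (n : ℕ) : Set ℝ := {t | ∃ (m : ℕ) (z : ℤ) (ω : ℕ → Bool), t = z / (2 * (n:ℝ) + 2) ^ m + yy n ω}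

lemma EE_iter (n : ℕ) (hn : 1 ≤ n) {t : ℝ} (ht : t ∈ EE n) : ∃ m0 : ℕ, ∀ M, m0 ≤ M →
    ∃ (z : ℤ) (ω : ℕ → Bool), (2 * (n:ℝ) + 2) ^ M * t = z + yy n ω := by
  obtain ⟨m, z, ω, rfl⟩ := ht
  refine ⟨m, fun M hM => ?_⟩
  obtain ⟨z', ω', h⟩ := yy_iter n hn M ω
  obtain ⟨d, rfl⟩ := Nat.exists_eq_add_of_le hM
  refine ⟨(2 * n + 2) ^ d * z + z', ω', ?_⟩
  rw [mul_add, h, pow_add]
  have : (2 * (n:ℝ) + 2) ^ m ≠ 0 := by positivity
  push_cast
  field_simp
  ring

/-- no `n` elements of `E'` sum to zero -/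
lemma EE_sum (n : ℕ) (hn : 1 ≤ n) (t : Fin n → ℝ) (ht : ∀ i, t i ∈ EE n) : ∑ i, t i ≠ 0 := by
  intro hsum
  choose m0 hm0 using fun i => EE_iter n hn (ht i)
  set M := ∑ i, m0 i with hM
  have hle : ∀ i, m0 i ≤ M := fun i => Finset.single_le_sum (f := m0) (fun _ _ => Nat.zero_le _) (Finset.mem_univ i)
  choose z ω h using fun i => hm0 i M (hle i)
  have h1 : (∑ i, (z i : ℝ)) + ∑ i, yy n (ω i) = 0 := by
    rw [← Finset.sum_add_distrib, ← Finset.sum_congr rfl (fun i _ => h i), ← Finset.mul_sum, hsum, mul_zero]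
  have hn' : (1 : ℝ) ≤ n := by exact_mod_cast hn
  have hlb : 0 < ∑ i, yy n (ω i) := by
    have : ∑ i : Fin n, (1 / (2 * (n:ℝ) + 1)) ≤ ∑ i, yy n (ω i) := Finset.sum_le_sum (fun i _ => yy_lb n _)
    rw [Finset.sum_const, Finset.card_univ, Fintype.card_fin, nsmul_eq_mul] at this
    have h2 : 0 < (n:ℝ) * (1 / (2 * (n:ℝ) + 1)) := by positivity
    linarith
  have hub : ∑ i, yy n (ω i) < 1 := by
    have : ∑ i, yy n (ω i) ≤ ∑ i : Fin n, (2 / (2 * (n:ℝ) + 1)) := Finset.sum_le_sum (fun i _ => yy_ub n hn _)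
    rw [Finset.sum_const, Finset.card_univ, Fintype.card_fin, nsmul_eq_mul] at this
    have h2 : (n:ℝ) * (2 / (2 * (n:ℝ) + 1)) < 1 := by
      rw [mul_div_assoc', div_lt_one (by positivity)]
      linarith
    linarith
  have h3 : (∑ i, yy n (ω i)) = ((-(∑ i, z i) : ℤ) : ℝ) := by
    push_cast
    linarith
  rw [h3] at hlb hub
  have h4 : (0 : ℤ) < -(∑ i, z i) := by exact_mod_cast hlb
  have h5 : -(∑ i, z i) < (1 : ℤ) := by exact_mod_cast hub
  omega

lemma yy_cont (n : ℕ) (hn : 1 ≤ n) : Continuous (yy n) := by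
  have hc1 : cc n < 1 := by have := cc_lt n hn; linarith
  unfold yy
  refine continuous_const.add (continuous_const.mul ?_)
  unfold Cardinal.cantorFunction
  refine continuous_tsum (u := fun k => (cc n) ^ k) (fun k => ?_)
    (summable_geometric_of_lt_one (cc_pos n).le hc1) (fun k ω => ?_)
  · have : (fun ω : ℕ → Bool => Cardinal.cantorFunctionAux (cc n) ω k) =
        (fun b : Bool => cond b ((cc n) ^ k) 0) ∘ (fun ω : ℕ → Bool => ω k) := by
      ext ω; rfl
    rw [this]
    exact continuous_of_discreteTopology.comp (continuous_apply k)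
  · unfold Cardinal.cantorFunctionAux
    have := cc_pos n
    cases ω k
    · simp only [cond_false, norm_zero]; positivity
    · simp only [cond_true, norm_pow, Real.norm_eq_abs]
      rw [abs_of_pos this]

lemma yy_inj (n : ℕ) (hn : 1 ≤ n) : Function.Injective (yy n) := by
  intro a b h
  unfold yy at h
  have := cc_pos n
  have h2 : Cardinal.cantorFunction (cc n) a = Cardinal.cantorFunction (cc n) b := by
    have : cc n * Cardinal.cantorFunction (cc n) a = cc n * Cardinal.cantorFunction (cc n) b := by linarith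
    exact mul_left_cancel₀ (cc_pos n).ne' this
  exact Cardinal.cantorFunction_injective (cc_pos n) (cc_lt n hn) h2

lemma EE_meas (n : ℕ) (hn : 1 ≤ n) : MeasurableSet (EE n) := by
  have : EE n = ⋃ (m : ℕ) (z : ℤ), (fun u => (z : ℝ) / (2 * (n:ℝ) + 2) ^ m + u) '' (range (yy n)) := by
    ext t
    simp only [EE, mem_ofPred_eq, mem_iUnion, mem_image, mem_range, exists_exists_eq_and]
    constructor
    · rintro ⟨m, z, ω, rfl⟩; exact ⟨m, z, ω, rfl⟩
    · rintro ⟨m, z, ω, rfl⟩; exact ⟨m, z, ω, rfl⟩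
  rw [this]
  refine MeasurableSet.iUnion fun m => MeasurableSet.iUnion fun z => ?_
  have h1 : IsCompact (range (yy n)) := isCompact_range (yy_cont n hn)
  exact (h1.image (continuous_const.add continuous_id)).isClosed.measurableSet

lemma unc_bool : ¬ Countable (ℕ → Bool) := by
  intro h
  obtain ⟨f, hf⟩ := exists_surjective_nat (ℕ → Bool)
  obtain ⟨m, hm⟩ := hf (fun k => !(f k k))
  have := congrFun hm m
  simp at this

lemma exists_g (n : ℕ) (hn : 1 ≤ n) : ∃ g : ℝ → ℝ, Measurable g ∧ Function.Injective g ∧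
    ∀ x, ∃ ω, g x = yy n ω := by
  let e := PolishSpace.measurableEquivOfNotCountable (α := ℝ) (β := ℕ → Bool)
    (not_countable_iff.2 inferInstance) unc_bool
  exact ⟨yy n ∘ e, (yy_cont n hn).measurable.comp e.measurable, (yy_inj n hn).comp e.injective,
    fun x => ⟨e x, rfl⟩⟩

lemma exists_d (n : ℕ) : ∃ d : ℕ → ℝ, (∀ i, ∃ (m : ℕ) (z : ℤ), d i = z / (2 * (n:ℝ) + 2) ^ m) ∧
    ∀ a b, a < b → ∃ i, a < d i ∧ d i < b := by
  set D : Set ℝ := range (fun p : ℕ × ℤ => (p.2 : ℝ) / (2 * (n:ℝ) + 2) ^ p.1) with hD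
  have hc : D.Countable := countable_range _
  obtain ⟨d, hd⟩ := hc.exists_eq_range ⟨_, ⟨(0, 0), rfl⟩⟩
  refine ⟨d, fun i => ?_, fun a b hab => ?_⟩
  · have : d i ∈ D := by rw [hd]; exact ⟨i, rfl⟩
    obtain ⟨p, hp⟩ := this
    exact ⟨p.1, p.2, hp.symm⟩
  · obtain ⟨m, hm⟩ := pow_unbounded_of_one_lt (1 / (b - a)) (y := 2 * (n:ℝ) + 2) (by
      have : (0:ℝ) ≤ n := by positivity
      linarith)
    have hB : 0 < (2 * (n:ℝ) + 2) ^ m := by positivity
    have hmem : (((⌊a * (2 * (n:ℝ) + 2) ^ m⌋ + 1 : ℤ) : ℝ) / (2 * (n:ℝ) + 2) ^ m) ∈ D :=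
      ⟨(m, ⌊a * (2 * (n:ℝ) + 2) ^ m⌋ + 1), rfl⟩
    rw [hd] at hmem
    obtain ⟨i, hi⟩ := hmem
    refine ⟨i, ?_, ?_⟩
    · rw [hi, lt_div_iff₀ hB]
      push_cast
      exact Int.lt_floor_add_one _
    · rw [hi, div_lt_iff₀ hB]
      push_cast
      have h1 := Int.floor_le (a * (2 * (n:ℝ) + 2) ^ m)
      have h2 : 1 < (b - a) * (2 * (n:ℝ) + 2) ^ m := by
        rw [div_lt_iff₀ (by linarith)] at hm
        linarith
      nlinarith

lemma exists_nu (n : ℕ) (hn : 1 ≤ n) : ∃ ν : Measure ℝ, IsProbabilityMeasure ν ∧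
    (∀ x, ν {x} = 0) ∧ ν (EE n)ᶜ = 0 ∧ ∀ a b, a < b → 0 < ν (Ioo a b) := by
  obtain ⟨g, hg, hginj, hgy⟩ := exists_g n hn
  obtain ⟨d, hd1, hd2⟩ := exists_d n
  set κ : Measure ℝ := (volume.restrict (Ioo (0:ℝ) 1)).map g with hκ
  have hκu : κ univ = 1 := by
    rw [hκ, Measure.map_apply hg MeasurableSet.univ]
    simp
  have hκx : ∀ x, κ {x} = 0 := by
    intro x
    rw [hκ, Measure.map_apply hg (measurableSet_singleton x)]
    have : (g ⁻¹' {x}).Subsingleton := by
      intro u hu v hv
      exact hginj (hu.trans hv.symm)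
    exact this.measure_zero _
  have hmd : ∀ i, Measurable (fun u : ℝ => d i + u) := fun i => measurable_const.add measurable_id
  set ν : Measure ℝ := Measure.sum (fun i : ℕ => (2⁻¹ : ENNReal) ^ (i + 1) • κ.map (fun u => d i + u)) with hν
  have hνap : ∀ s, MeasurableSet s → ν s = ∑' i : ℕ, (2⁻¹ : ENNReal) ^ (i + 1) * κ ((fun u => d i + u) ⁻¹' s) := by
    intro s hs
    rw [hν, Measure.sum_apply _ hs]
    refine tsum_congr fun i => ?_
    rw [Measure.smul_apply, smul_eq_mul, Measure.map_apply (hmd i) hs]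
  refine ⟨ν, ⟨?_⟩, fun x => ?_, ?_, fun a b hab => ?_⟩
  · rw [hνap _ MeasurableSet.univ]
    simp only [preimage_univ, hκu, mul_one]
    rw [ENNReal.tsum_geometric_add_one, ENNReal.one_sub_inv_two, inv_inv]
    exact ENNReal.inv_mul_cancel (by norm_num) (by norm_num)
  · rw [hνap _ (measurableSet_singleton x)]
    simp only [ENNReal.tsum_eq_zero, mul_eq_zero]
    intro i
    right
    have : (fun u => d i + u) ⁻¹' {x} = {x - d i} := by
      ext u
      simp only [mem_preimage, mem_singleton_iff]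
      constructor <;> intro h <;> linarith
    rw [this]
    exact hκx _
  · rw [hνap _ (EE_meas n hn).compl]
    simp only [ENNReal.tsum_eq_zero, mul_eq_zero]
    intro i
    right
    rw [hκ, Measure.map_apply hg ((hmd i) (EE_meas n hn).compl)]
    have : g ⁻¹' ((fun u => d i + u) ⁻¹' (EE n)ᶜ) = ∅ := by
      ext x
      simp only [mem_preimage, mem_compl_iff, mem_empty_iff_false, iff_false, not_not]
      obtain ⟨m, z, hz⟩ := hd1 i
      obtain ⟨ω, hω⟩ := hgy x
      exact ⟨m, z, ω, by rw [hz, hω]⟩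
    rw [this, measure_empty]
  · set ε := (b - a) / 3 with hε
    have hε0 : 0 < ε := by rw [hε]; linarith
    have hcov : (univ : Set ℝ) ⊆ ⋃ j : ℤ, Ico (j * ε) ((j + 1) * ε) := by
      intro x _
      rw [mem_iUnion]
      refine ⟨⌊x / ε⌋, ?_, ?_⟩
      · have := Int.floor_le (x / ε)
        rwa [le_div_iff₀ hε0] at this
      · have := Int.lt_floor_add_one (x / ε)
        rwa [div_lt_iff₀ hε0] at this
    have hj : ∃ j : ℤ, κ (Ico (j * ε) ((j + 1) * ε)) ≠ 0 := by
      by_contra hcon
      push Not at hcon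
      have h0 : κ univ = 0 := by
        refine measure_mono_null hcov ?_
        rw [measure_iUnion_null_iff]
        exact hcon
      rw [hκu] at h0
      exact one_ne_zero h0
    obtain ⟨j, hj⟩ := hj
    obtain ⟨i, hi1, hi2⟩ := hd2 (a - j * ε) (a - j * ε + ε) (by linarith)
    rw [hνap _ measurableSet_Ioo]
    refine lt_of_lt_of_le ?_ (ENNReal.le_tsum i)
    have hsub : Ico (j * ε) ((j + 1) * ε) ⊆ (fun u => d i + u) ⁻¹' (Ioo a b) := by
      intro u hu
      simp only [mem_preimage, mem_Ioo, mem_Ico] at hu ⊢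
      constructor
      · linarith [hu.1]
      · have := hu.2
        have e : b = a + 3 * ε := by rw [hε]; ring
        nlinarith
    have h1 := measure_mono hsub (μ := κ)
    have h2 : 0 < κ ((fun u => d i + u) ⁻¹' (Ioo a b)) := lt_of_lt_of_le (pos_iff_ne_zero.2 hj) h1
    exact ENNReal.mul_pos (by simp) h2.ne'

lemma exists_F (n : ℕ) (hn : 1 ≤ n) : ∃ F : ℝ → ℝ, StrictMono F ∧ (∀ t, F t ∈ Ioo (0:ℝ) 1) ∧
    (∀ y ∈ Ioo (0:ℝ) 1, ∃ t, F t = y) ∧ volume (F '' (EE n)ᶜ) = 0 := by
  obtain ⟨ν, hprob, hat, hE, hpos⟩ := exists_nu n hn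
  set F : ℝ → ℝ := fun t => cdf ν t with hF
  have hFr : ∀ t, F t = ν.real (Iic t) := fun t => cdf_eq_real ν t
  have hmono : StrictMono F := by
    intro s t hst
    have h1 : ν (Iic t) = ν (Iic s) + ν (Ioc s t) := by
      rw [← measure_union _ measurableSet_Ioc, Iic_union_Ioc_eq_Iic hst.le]
      rw [Set.disjoint_left]
      intro x hx hx'
      exact absurd hx'.1 (not_lt.2 hx)
    rw [hFr, hFr, Measure.real, Measure.real]
    refine ENNReal.toReal_strict_mono (measure_ne_top _ _) ?_
    rw [h1]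
    refine ENNReal.lt_add_right (measure_ne_top _ _) ?_
    have := hpos s t hst
    exact (lt_of_lt_of_le this (measure_mono Ioo_subset_Ioc_self)).ne'
  have hcont : Continuous F := by
    rw [continuous_iff_continuousAt]
    intro t
    have hm : Monotone (cdf ν) := (cdf ν).mono
    have hms := (cdf ν).measure_singleton t
    rw [measure_cdf, hat t] at hms
    have hle : Function.leftLim (cdf ν) t ≤ cdf ν t := hm.leftLim_le le_rfl
    have hge : cdf ν t - Function.leftLim (cdf ν) t ≤ 0 := ENNReal.ofReal_eq_zero.1 hms.symm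
    have heq : Function.leftLim (cdf ν) t = cdf ν t := by linarith
    have hr : Function.rightLim (cdf ν) t = cdf ν t := (cdf ν).rightLim_eq t
    exact hm.continuousAt_iff_leftLim_eq_rightLim.2 (heq.trans hr.symm)
  have h0 : ∀ t, 0 < F t := fun t =>
    lt_of_le_of_lt (cdf_nonneg ν (t - 1)) (hmono (by linarith : t - 1 < t))
  have h1 : ∀ t, F t < 1 := fun t =>
    lt_of_lt_of_le (hmono (by linarith : t < t + 1)) (cdf_le_one ν (t + 1))
  have hsurj : ∀ y ∈ Ioo (0:ℝ) 1, ∃ t, F t = y := by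
    intro y hy
    obtain ⟨a, ha⟩ := ((tendsto_cdf_atBot ν).eventually (gt_mem_nhds hy.1)).exists
    obtain ⟨b, hb⟩ := ((tendsto_cdf_atTop ν).eventually (lt_mem_nhds hy.2)).exists
    exact mem_range_of_exists_le_of_exists_ge hcont ⟨a, ha.le⟩ ⟨b, hb.le⟩
  refine ⟨F, hmono, fun t => ⟨h0 t, h1 t⟩, hsurj, ?_⟩
  have hmeas : Measurable F := hcont.measurable
  have hemb : MeasurableEmbedding F := hmeas.measurableEmbedding hmono.injective
  have hmap : ν.map F = volume.restrict (Ioo (0:ℝ) 1) := by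
    have : IsProbabilityMeasure (ν.map F) := Measure.isProbabilityMeasure_map hmeas.aemeasurable
    refine Measure.ext_of_Iic _ _ fun y => ?_
    rw [Measure.map_apply hmeas measurableSet_Iic, Measure.restrict_apply measurableSet_Iic]
    rcases le_or_gt y 0 with hy | hy
    · have e1 : F ⁻¹' Iic y = ∅ := by
        ext t; simp only [mem_preimage, mem_Iic, mem_empty_iff_false, iff_false, not_le]
        linarith [h0 t]
      have e2 : Iic y ∩ Ioo (0:ℝ) 1 = ∅ := by
        ext t; simp only [mem_inter_iff, mem_Iic, mem_Ioo, mem_empty_iff_false, iff_false]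
        rintro ⟨h, h', _⟩; linarith
      rw [e1, e2]; simp
    · rcases lt_or_ge y 1 with hy1 | hy1
      · obtain ⟨t, rfl⟩ := hsurj y ⟨hy, hy1⟩
        have e1 : F ⁻¹' Iic (F t) = Iic t := by
          ext s; simp only [mem_preimage, mem_Iic]; exact hmono.le_iff_le
        have e2 : Iic (F t) ∩ Ioo (0:ℝ) 1 = Ioc 0 (F t) := by
          ext s; simp only [mem_inter_iff, mem_Iic, mem_Ioo, mem_Ioc]
          constructor
          · rintro ⟨h, h', _⟩; exact ⟨h', h⟩
          · rintro ⟨h', h⟩; exact ⟨h, h', by linarith [h1 t]⟩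
        rw [e1, e2, Real.volume_Ioc, sub_zero, ← ofReal_cdf]
      · have e1 : F ⁻¹' Iic y = univ := by
          ext t; simp only [mem_preimage, mem_Iic, mem_univ, iff_true]
          linarith [h1 t]
        have e2 : Iic y ∩ Ioo (0:ℝ) 1 = Ioo 0 1 := by
          ext s; simp only [mem_inter_iff, mem_Iic, mem_Ioo]
          constructor
          · rintro ⟨_, h⟩; exact h
          · rintro ⟨h', h⟩; exact ⟨by linarith, h', h⟩
        rw [e1, e2, measure_univ]; simp
  have hmN : MeasurableSet (F '' (EE n)ᶜ) := hemb.measurableSet_image.2 (EE_meas n hn).compl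
  have hsub : F '' (EE n)ᶜ ⊆ Ioo (0:ℝ) 1 := by
    rintro _ ⟨t, _, rfl⟩; exact ⟨h0 t, h1 t⟩
  have h2 : (volume.restrict (Ioo (0:ℝ) 1)) (F '' (EE n)ᶜ) = volume (F '' (EE n)ᶜ) := by
    rw [Measure.restrict_apply hmN, inter_eq_left.2 hsub]
  rw [← h2, ← hmap, Measure.map_apply hmeas hmN, preimage_image_eq _ hmono.injective]
  exact hE
lemma cdf_cont (ν : Measure ℝ) [IsProbabilityMeasure ν] (hat : ∀ x, ν {x} = 0) :
    Continuous (cdf ν) := by
  rw [continuous_iff_continuousAt]
  intro t
  have hm : Monotone (cdf ν) := (cdf ν).mono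
  have hms := (cdf ν).measure_singleton t
  rw [measure_cdf, hat t] at hms
  have hle : Function.leftLim (cdf ν) t ≤ cdf ν t := hm.leftLim_le le_rfl
  have hge : cdf ν t - Function.leftLim (cdf ν) t ≤ 0 := ENNReal.ofReal_eq_zero.1 hms.symm
  have heq : Function.leftLim (cdf ν) t = cdf ν t := by linarith
  have hr : Function.rightLim (cdf ν) t = cdf ν t := (cdf ν).rightLim_eq t
  exact hm.continuousAt_iff_leftLim_eq_rightLim.2 (heq.trans hr.symm)

/-- A finite measure without atoms takes every intermediate value. -/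
lemma exists_cut {X : Type*} [MeasurableSpace X] [StandardBorelSpace X] (hX : ¬ Countable X)
    (μ : Measure X) [IsFiniteMeasure μ] (hat : ∀ x, μ {x} = 0) (c : ℝ≥0∞) (hc : c ≤ μ univ) :
    ∃ A, MeasurableSet A ∧ μ A = c := by
  rcases eq_or_ne c 0 with rfl | hc0
  · exact ⟨∅, MeasurableSet.empty, measure_empty⟩
  rcases eq_or_lt_of_le hc with rfl | hlt
  · exact ⟨univ, MeasurableSet.univ, rfl⟩
  have hfin : μ univ ≠ ∞ := measure_ne_top _ _
  have hpos : μ univ ≠ 0 := by
    intro h; rw [h] at hlt; exact not_lt_zero hlt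
  let e := PolishSpace.measurableEquivOfNotCountable hX (not_countable_iff.2 (inferInstance : Uncountable ℝ))
  set ν : Measure ℝ := (μ univ)⁻¹ • μ.map e with hν
  have hνap : ∀ s, MeasurableSet s → ν s = (μ univ)⁻¹ * μ (e ⁻¹' s) := by
    intro s hs
    rw [hν, Measure.smul_apply, smul_eq_mul, Measure.map_apply e.measurable hs]
  have hprob : IsProbabilityMeasure ν := by
    refine ⟨?_⟩
    rw [hνap _ MeasurableSet.univ, preimage_univ]
    exact ENNReal.inv_mul_cancel hpos hfin
  have hνx : ∀ x, ν {x} = 0 := by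
    intro x
    rw [hνap _ (measurableSet_singleton x)]
    have : e ⁻¹' {x} = {e.symm x} := by
      ext u
      simp only [mem_preimage, mem_singleton_iff]
      constructor
      · intro h; rw [← h]; simp
      · intro h; rw [h]; simp
    rw [this, hat, mul_zero]
  set y : ℝ := ((μ univ)⁻¹ * c).toReal with hy
  have hcfin : c ≠ ∞ := (lt_of_lt_of_le hlt le_top).ne
  have hne : (μ univ)⁻¹ * c ≠ ∞ := ENNReal.mul_ne_top (ENNReal.inv_ne_top.2 hpos) hcfin
  have hy0 : 0 < y := by
    rw [hy]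
    refine ENNReal.toReal_pos ?_ hne
    exact mul_ne_zero (ENNReal.inv_ne_zero.2 hfin) hc0
  have hy1 : y < 1 := by
    rw [hy, ← ENNReal.toReal_one]
    refine ENNReal.toReal_strict_mono ENNReal.one_ne_top ?_
    rw [← ENNReal.inv_mul_cancel hpos hfin]
    exact (ENNReal.mul_lt_mul_iff_right (ENNReal.inv_ne_zero.2 hfin) (ENNReal.inv_ne_top.2 hpos)).2 hlt
  obtain ⟨a, ha⟩ := ((tendsto_cdf_atBot ν).eventually (gt_mem_nhds hy0)).exists
  obtain ⟨b, hb⟩ := ((tendsto_cdf_atTop ν).eventually (lt_mem_nhds hy1)).exists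
  obtain ⟨t, ht⟩ := mem_range_of_exists_le_of_exists_ge (cdf_cont ν hνx) ⟨a, ha.le⟩ ⟨b, hb.le⟩
  refine ⟨e ⁻¹' Iic t, e.measurable measurableSet_Iic, ?_⟩
  have h1 := ofReal_cdf ν t
  rw [ht, hy, ENNReal.ofReal_toReal hne, hνap _ measurableSet_Iic] at h1
  exact ((ENNReal.mul_right_inj (ENNReal.inv_ne_zero.2 hfin) (ENNReal.inv_ne_top.2 hpos)).1 h1).symm

abbrev E (n : ℕ) := EuclideanSpace ℝ (Fin n)

/-- insertion of a zero coordinate -/
noncomputable def ins (n : ℕ) (j : Fin n) : ({k : Fin n // k ≠ j} → ℝ) →ₗ[ℝ] E n where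
  toFun u := WithLp.toLp 2 (fun i => if h : i ≠ j then u ⟨i, h⟩ else 0)
  map_add' u v := by
    ext i; simp only [PiLp.add_apply, Pi.add_apply]; split_ifs <;> simp
  map_smul' c u := by
    ext i; simp only [PiLp.smul_apply, Pi.smul_apply, RingHom.id_apply]; split_ifs <;> simp

lemma card_ne (n : ℕ) (j : Fin n) : (Fintype.card {k : Fin n // k ≠ j} : ℝ) = (n : ℝ) - 1 := by
  have h1 : Fintype.card {k : Fin n // k ≠ j} = n - 1 := by
    rw [Fintype.card_subtype_compl]; simp
  rw [h1]
  have : 1 ≤ n := by have := j.pos; omega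
  push_cast [Nat.cast_sub this]
  ring

/-- pieces of a facet lying over a Lebesgue-null set are null -/
lemma null_piece (n : ℕ) (j i : Fin n) (hij : i ≠ j) (N : Set ℝ) (hN : volume N = 0) :
    Measure.hausdorffMeasure ((n : ℝ) - 1) {x : E n | x j = 0 ∧ x i ∈ N} = 0 := by
  set L := (ins n j).toContinuousLinearMap with hL
  have hLip := L.lipschitz
  set s : Set ({k : Fin n // k ≠ j} → ℝ) := {u | u ⟨i, hij⟩ ∈ N} with hs
  have hnonneg : (0:ℝ) ≤ (n : ℝ) - 1 := by
    have : (1:ℝ) ≤ n := by exact_mod_cast (by have := j.pos; omega : 1 ≤ n)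
    linarith
  have h1 : {x : E n | x j = 0 ∧ x i ∈ N} ⊆ L '' s := by
    rintro x ⟨hx0, hxi⟩
    refine ⟨fun k => x k.1, hxi, ?_⟩
    ext k
    simp only [hL, LinearMap.coe_toContinuousLinearMap', ins, LinearMap.coe_mk, AddHom.coe_mk]
    split_ifs with h
    · rfl
    · simp only [ne_eq, not_not] at h
      rw [h]; exact hx0.symm
  have h2 : (volume : Measure ({k : Fin n // k ≠ j} → ℝ)) s = 0 := by
    have := (Measure.quasiMeasurePreserving_eval (fun _ : {k : Fin n // k ≠ j} => (volume : Measure ℝ))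
      ⟨i, hij⟩).preimage_null hN
    exact this
  refine measure_mono_null h1 ?_
  have h3 := hLip.hausdorffMeasure_image_le hnonneg s
  rw [← card_ne n j, hausdorffMeasure_pi_real, h2, mul_zero] at h3
  rw [← card_ne n j]
  exact le_antisymm h3 zero_le

/-- all facets have the same measure -/
lemma facet_eq (n : ℕ) (j k : Fin n) (d : ℝ) :
    Measure.hausdorffMeasure d (facet n j) = Measure.hausdorffMeasure d (facet n k) := by
  set e : E n ≃ₗᵢ[ℝ] E n := LinearIsometryEquiv.piLpCongrLeft 2 ℝ ℝ (Equiv.swap j k) with he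
  have hap : ∀ x i, e x i = x (Equiv.swap j k i) := by
    intro x i
    simp [he, LinearIsometryEquiv.piLpCongrLeft_apply, Equiv.piCongrLeft'_apply]
  have him : e '' (facet n j) = facet n k := by
    ext y
    constructor
    · rintro ⟨x, hx, rfl⟩
      refine ⟨fun i => ?_, ?_⟩
      · rw [hap]; exact hx.1 _
      · rw [hap, Equiv.swap_apply_right]; exact hx.2
    · intro hy
      refine ⟨e.symm y, ?_, by simp⟩
      have hap' : ∀ i, e.symm y i = y (Equiv.swap j k i) := by
        intro i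
        have := hap (e.symm y) (Equiv.swap j k i)
        rw [Equiv.swap_apply_self, LinearIsometryEquiv.apply_symm_apply] at this
        exact this.symm
      refine ⟨fun i => ?_, ?_⟩
      · rw [hap']; exact hy.1 _
      · rw [hap', Equiv.swap_apply_left]; exact hy.2
  rw [← him]
  exact (e.toIsometryEquiv.hausdorffMeasure_image d (facet n j)).symm

/-- A facet has positive finite `(n-1)`-dimensional measure. -/
lemma facet_pos_finite (n : ℕ) (j : Fin n) :
    0 < Measure.hausdorffMeasure ((n : ℝ) - 1) (facet n j) ∧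
      Measure.hausdorffMeasure ((n : ℝ) - 1) (facet n j) < ∞ := by
  have hnonneg : (0:ℝ) ≤ (n : ℝ) - 1 := by
    have : (1:ℝ) ≤ n := by exact_mod_cast (by have := j.pos; omega : 1 ≤ n)
    linarith
  set Q : Set ({k : Fin n // k ≠ j} → ℝ) := Set.pi univ (fun _ => Icc (0:ℝ) 1) with hQ
  constructor
  · set r : E n → ({k : Fin n // k ≠ j} → ℝ) := fun x k => x k.1 with hr
    have hrL : LipschitzWith 1 r := by
      refine LipschitzWith.of_dist_le_mul fun x y => ?_
      rw [NNReal.coe_one, one_mul, dist_pi_le_iff dist_nonneg]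
      intro k
      rw [EuclideanSpace.dist_eq]
      refine Real.le_sqrt_of_sq_le ?_
      exact Finset.single_le_sum (f := fun i => dist (x i) (y i) ^ 2) (fun i _ => by positivity)
        (Finset.mem_univ k.1)
    have h1 := hrL.hausdorffMeasure_image_le hnonneg (facet n j)
    rw [ENNReal.coe_one, ENNReal.one_rpow, one_mul] at h1
    refine lt_of_lt_of_le ?_ h1
    have hsub : Q ⊆ r '' (facet n j) := by
      intro u hu
      refine ⟨WithLp.toLp 2 (fun i => if h : i ≠ j then u ⟨i, h⟩ else 0), ⟨fun i => ?_, ?_⟩, ?_⟩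
      · dsimp only
        split_ifs with h
        · exact hu ⟨i, h⟩ (mem_univ _)
        · constructor <;> norm_num
      · simp
      · ext k
        simp only [hr]
        rw [dif_pos k.2]
    refine lt_of_lt_of_le ?_ (measure_mono hsub)
    rw [← card_ne n j, hausdorffMeasure_pi_real, hQ, volume_pi_pi]
    simp
  · set L := (ins n j).toContinuousLinearMap with hL
    have hsub : facet n j ⊆ L '' Q := by
      intro x hx
      refine ⟨fun k => x k.1, fun k _ => hx.1 k.1, ?_⟩
      ext k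
      simp only [hL, LinearMap.coe_toContinuousLinearMap', ins, LinearMap.coe_mk, AddHom.coe_mk]
      split_ifs with h
      · rfl
      · simp only [ne_eq, not_not] at h
        rw [h]; exact hx.2.symm
    refine lt_of_le_of_lt (measure_mono hsub) ?_
    refine lt_of_le_of_lt (L.lipschitz.hausdorffMeasure_image_le hnonneg Q) ?_
    refine ENNReal.mul_lt_top (ENNReal.rpow_lt_top_of_nonneg hnonneg ENNReal.coe_ne_top) ?_
    rw [← card_ne n j, hausdorffMeasure_pi_real]
    exact (isCompact_univ_pi fun _ => isCompact_Icc).measure_lt_top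

/-- A cube antichain has finite measure. -/
lemma finite_of_antichain (n : ℕ) (j : Fin n) (S : Set (E n)) (hS : IsCubeAntichain n S) :
    Measure.hausdorffMeasure ((n : ℝ) - 1) S ≠ ∞ := by
  have hnonneg : (0:ℝ) ≤ (n : ℝ) - 1 := by
    have : (1:ℝ) ≤ n := by exact_mod_cast (by have := j.pos; omega : 1 ≤ n)
    linarith
  set f : S → ({k : Fin n // k ≠ j} → ℝ) := fun x k => (x : E n) k.1 - (x : E n) j with hf
  have key : ∀ x y : S, ∀ i, |(x : E n) i - (y : E n) i| ≤ 2 * dist (f x) (f y) := by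
    intro x y
    set M := dist (f x) (f y) with hM
    have hM0 : 0 ≤ M := dist_nonneg
    have hco : ∀ i, |((x : E n) i - (y : E n) i) - ((x : E n) j - (y : E n) j)| ≤ M := by
      intro i
      by_cases hij : i = j
      · subst hij; simpa using hM0
      · have := dist_le_pi_dist (f x) (f y) ⟨i, hij⟩
        rw [Real.dist_eq] at this
        simp only [hf] at this
        have e : ((x : E n) i - (y : E n) i) - ((x : E n) j - (y : E n) j) =
          ((x : E n) i - (x : E n) j) - ((y : E n) i - (y : E n) j) := by ring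
        rw [e]; exact this
    have hz0 : |(x : E n) j - (y : E n) j| ≤ M := by
      by_cases hxy : x = y
      · subst hxy; simpa using hM0
      have hxy' : (x : E n) ≠ y := fun h => hxy (Subtype.ext h)
      have h1 : ¬ ∀ i, (x : E n) i ≤ (y : E n) i := fun h => hxy' (hS.2 _ x.2 _ y.2 h)
      have h2 : ¬ ∀ i, (y : E n) i ≤ (x : E n) i := fun h => hxy' (hS.2 _ y.2 _ x.2 h).symm
      push Not at h1 h2
      obtain ⟨a, ha⟩ := h1
      obtain ⟨b, hb⟩ := h2
      rw [abs_le]
      have h3 := abs_le.1 (hco a)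
      have h4 := abs_le.1 (hco b)
      constructor <;> linarith [h3.1, h3.2, h4.1, h4.2]
    intro i
    have h5 := abs_le.1 (hco i)
    have h6 := abs_le.1 hz0
    rw [abs_le]
    constructor <;> linarith [h5.1, h5.2, h6.1, h6.2]
  have hanti : AntilipschitzWith (2 * (Real.toNNReal (Real.sqrt n))) f := by
    refine AntilipschitzWith.of_le_mul_dist fun x y => ?_
    rw [Subtype.dist_eq, EuclideanSpace.dist_eq]
    have h1 : ∑ i, dist ((x : E n) i) ((y : E n) i) ^ 2 ≤ n * (2 * dist (f x) (f y)) ^ 2 := by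
      calc ∑ i, dist ((x : E n) i) ((y : E n) i) ^ 2 ≤ ∑ _i : Fin n, (2 * dist (f x) (f y)) ^ 2 := by
            refine Finset.sum_le_sum fun i _ => ?_
            rw [Real.dist_eq]
            exact pow_le_pow_left₀ (abs_nonneg _) (key x y i) 2
        _ = n * (2 * dist (f x) (f y)) ^ 2 := by simp
    calc √(∑ i, dist ((x : E n) i) ((y : E n) i) ^ 2) ≤ √(n * (2 * dist (f x) (f y)) ^ 2) :=
          Real.sqrt_le_sqrt h1
      _ = √n * (2 * dist (f x) (f y)) := by
          rw [Real.sqrt_mul (by positivity), Real.sqrt_sq (by positivity)]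
      _ = ((2 * (Real.toNNReal (Real.sqrt n)) : ℝ≥0) : ℝ) * dist (f x) (f y) := by
          push_cast
          rw [Real.coe_toNNReal _ (Real.sqrt_nonneg _)]
          ring
  have h1 := hanti.le_hausdorffMeasure_image hnonneg (univ : Set S)
  have h2 : Measure.hausdorffMeasure ((n : ℝ) - 1) (univ : Set S) = Measure.hausdorffMeasure ((n : ℝ) - 1) S := by
    have := (isometry_subtype_coe (s := S)).hausdorffMeasure_image (Or.inl hnonneg) (univ : Set S)
    rw [← this]; simp
  rw [h2] at h1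
  refine (lt_of_le_of_lt h1 ?_).ne
  refine ENNReal.mul_lt_top (ENNReal.rpow_lt_top_of_nonneg hnonneg ENNReal.coe_ne_top) ?_
  have hsub : f '' univ ⊆ Set.pi univ (fun _ => Icc (-1:ℝ) 1) := by
    rintro _ ⟨x, _, rfl⟩ k _
    have h3 := hS.1 _ x.2 k.1
    have h4 := hS.1 _ x.2 j
    simp only [hf, mem_Icc]
    constructor <;> linarith [h3.1, h3.2, h4.1, h4.2]
  refine lt_of_le_of_lt (measure_mono hsub) ?_
  rw [← card_ne n j, hausdorffMeasure_pi_real]
  exact (isCompact_univ_pi fun _ => isCompact_Icc).measure_lt_top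

/-- **Main theorem.** For every `n ≥ 2` (in particular for every `n ≥ 3`) there is an `n`-cube
antichain whose `(n-1)`-dimensional Hausdorff measure is exactly `n` times the measure of a facet
of the cube. -/
theorem result (n : ℕ) (hn : 2 ≤ n) :
    ∃ S : Set (EuclideanSpace ℝ (Fin n)), IsCubeAntichain n S ∧
      ∀ j, 0 < Measure.hausdorffMeasure ((n : ℝ) - 1) (facet n j) ∧
        Measure.hausdorffMeasure ((n : ℝ) - 1) (facet n j) < ∞ ∧
        Measure.hausdorffMeasure ((n : ℝ) - 1) S =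
          n * Measure.hausdorffMeasure ((n : ℝ) - 1) (facet n j) := by
  obtain ⟨F, hmono, hF01, hsurj, hnull⟩ := exists_F n (by omega)
  have hnonneg : (0:ℝ) ≤ (n : ℝ) - 1 := by
    have : (2:ℝ) ≤ n := by exact_mod_cast hn
    linarith
  have hpos : (0:ℝ) < (n : ℝ) - 1 := by
    have : (2:ℝ) ≤ n := by exact_mod_cast hn
    linarith
  have hFm : Measurable F := hmono.monotone.measurable
  set Φ : (Fin n → ℝ) → E n := fun t => WithLp.toLp 2 (fun i => F (t i)) with hΦ
  have hΦm : Measurable Φ := by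
    refine (MeasurableEquiv.toLp 2 (Fin n → ℝ)).measurable.comp ?_
    exact measurable_pi_lambda _ fun i => hFm.comp (measurable_pi_apply i)
  have hΦi : Function.Injective Φ := by
    intro s t hst
    ext i
    have := congrArg (fun x : E n => x i) hst
    exact hmono.injective this
  have hΦe : MeasurableEmbedding Φ := hΦm.measurableEmbedding hΦi
  set T : Set (Fin n → ℝ) := {t | ∑ i, t i = 0} with hT
  set Tj : Fin n → Set (Fin n → ℝ) := fun j => {t | ∑ i, t i = 0 ∧ ∀ i, i ≠ j → t i ∈ EE n} with hTj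
  have hTjm : ∀ j, MeasurableSet (Tj j) := by
    intro j
    have e : Tj j = {t | ∑ i, t i = 0} ∩ ⋂ i, ⋂ (_ : i ≠ j), {t | t i ∈ EE n} := by
      ext t; simp [hTj]
    rw [e]
    refine MeasurableSet.inter ?_ (MeasurableSet.iInter fun i => MeasurableSet.iInter fun _ => ?_)
    · exact (Finset.measurable_sum _ fun i _ => measurable_pi_apply i) (measurableSet_singleton 0)
    · exact (measurable_pi_apply i) (EE_meas n (by omega))
  have hanti : IsCubeAntichain n (Φ '' T) := by
    constructor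
    · rintro _ ⟨t, _, rfl⟩ i
      exact ⟨(hF01 (t i)).1.le, (hF01 (t i)).2.le⟩
    · rintro _ ⟨s, hs, rfl⟩ _ ⟨t, ht, rfl⟩ hle
      have h1 : ∀ i, s i ≤ t i := fun i => hmono.le_iff_le.1 (hle i)
      have h2 : s = t := by
        have h3 : ∑ i, (t i - s i) = 0 := by
          rw [Finset.sum_sub_distrib]
          rw [hT, mem_ofPred_eq] at hs ht
          rw [hs, ht, sub_zero]
        ext i
        have h4 := (Finset.sum_eq_zero_iff_of_nonneg (fun i _ => sub_nonneg.2 (h1 i))).1 h3 i
          (Finset.mem_univ i)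
        linarith
      rw [h2]
  have hfin := finite_of_antichain n ⟨0, by omega⟩ _ hanti
  -- pieces
  have hdisj : Pairwise (Function.onFun Disjoint (fun j => Φ '' Tj j)) := by
    intro j k hjk
    rw [Function.onFun, Set.disjoint_left]
    rintro _ ⟨s, hs, rfl⟩ ⟨t, ht, hst⟩
    have hst' := hΦi hst
    subst hst'
    refine EE_sum n (by omega) t (fun i => ?_) hs.1
    by_cases hij : i = j
    · exact ht.2 i (fun h => hjk (hij.symm.trans h))
    · exact hs.2 i hij
  have hpiece : ∀ j, Measure.hausdorffMeasure ((n : ℝ) - 1) (facet n j) ≤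
      Measure.hausdorffMeasure ((n : ℝ) - 1) (Φ '' Tj j) := by
    intro j
    set P : E n → E n := fun x => WithLp.toLp 2 (fun i => if i = j then 0 else x i) with hP
    have hPL : LipschitzWith 1 P := by
      refine LipschitzWith.of_dist_le_mul fun x y => ?_
      rw [NNReal.coe_one, one_mul, EuclideanSpace.dist_eq, EuclideanSpace.dist_eq]
      refine Real.sqrt_le_sqrt (Finset.sum_le_sum fun i _ => ?_)
      refine pow_le_pow_left₀ dist_nonneg ?_ 2
      simp only [hP]
      split_ifs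
      · simp
      · exact le_rfl
    have h1 := hPL.hausdorffMeasure_image_le hnonneg (Φ '' Tj j)
    rw [ENNReal.coe_one, ENNReal.one_rpow, one_mul] at h1
    refine le_trans ?_ h1
    set N : Set ℝ := F '' (EE n)ᶜ ∪ {0, 1} with hN
    have hNnull : volume N = 0 := by
      rw [hN]
      refine measure_union_null hnull ?_
      exact (Set.toFinite _).measure_zero _
    have hcov : facet n j ⊆ P '' (Φ '' Tj j) ∪ ⋃ i, ⋃ (_ : i ≠ j), {x : E n | x j = 0 ∧ x i ∈ N} := by
      intro x hx
      by_cases hbad : ∃ i, i ≠ j ∧ x i ∈ N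
      · obtain ⟨i, hij, hi⟩ := hbad
        right
        simp only [mem_iUnion]
        exact ⟨i, hij, hx.2, hi⟩
      · push Not at hbad
        left
        have hch : ∀ i, ∃ t, i ≠ j → (F t = x i ∧ t ∈ EE n) := by
          intro i
          by_cases hij : i = j
          · exact ⟨0, fun h => absurd hij h⟩
          · have h2 := hbad i hij
            rw [hN] at h2
            simp only [mem_union, mem_insert_iff, mem_singleton_iff, not_or] at h2
            have h3 := hx.1 i
            obtain ⟨t, ht⟩ := hsurj (x i) ⟨lt_of_le_of_ne h3.1 (Ne.symm h2.2.1),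
              lt_of_le_of_ne h3.2 h2.2.2⟩
            refine ⟨t, fun _ => ⟨ht, ?_⟩⟩
            by_contra hcon
            exact h2.1 ⟨t, hcon, ht⟩
        choose t ht using hch
        set t' : Fin n → ℝ := fun i => if i = j then - ∑ k ∈ Finset.univ.erase j, t k else t i with ht'
        refine ⟨Φ t', ⟨t', ⟨?_, ?_⟩, rfl⟩, ?_⟩
        · rw [← Finset.add_sum_erase _ _ (Finset.mem_univ j)]
          have e1 : t' j = - ∑ k ∈ Finset.univ.erase j, t k := by simp [ht']
          have e2 : ∑ k ∈ Finset.univ.erase j, t' k = ∑ k ∈ Finset.univ.erase j, t k := by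
            refine Finset.sum_congr rfl fun k hk => ?_
            have : k ≠ j := (Finset.mem_erase.1 hk).1
            simp [ht', this]
          rw [e1, e2]; ring
        · intro i hij
          have : t' i = t i := by simp [ht', hij]
          rw [this]
          exact (ht i hij).2
        · ext i
          simp only [hP, hΦ]
          by_cases hij : i = j
          · subst hij; simp [hx.2]
          · have : t' i = t i := by simp [ht', hij]
            simp only [if_neg hij, this]
            exact (ht i hij).1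
    refine (measure_mono hcov).trans ((measure_union_le _ _).trans ?_)
    have h0 : Measure.hausdorffMeasure ((n : ℝ) - 1)
        (⋃ i, ⋃ (_ : i ≠ j), {x : E n | x j = 0 ∧ x i ∈ N}) = 0 := by
      rw [measure_iUnion_null_iff]
      intro i
      rw [measure_iUnion_null_iff]
      intro hij
      exact null_piece n j i hij N hNnull
    rw [h0, add_zero]
  have hlow : (n : ℝ≥0∞) * Measure.hausdorffMeasure ((n : ℝ) - 1) (facet n ⟨0, by omega⟩) ≤
      Measure.hausdorffMeasure ((n : ℝ) - 1) (Φ '' T) := by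
    have hsub : (⋃ j, Φ '' Tj j) ⊆ Φ '' T := by
      rw [iUnion_subset_iff]
      intro j
      exact image_mono fun t ht => ht.1
    refine le_trans ?_ (measure_mono hsub)
    rw [measure_iUnion hdisj (fun j => hΦe.measurableSet_image.2 (hTjm j)), tsum_fintype]
    calc (n : ℝ≥0∞) * Measure.hausdorffMeasure ((n : ℝ) - 1) (facet n ⟨0, by omega⟩)
        = ∑ _j : Fin n, Measure.hausdorffMeasure ((n : ℝ) - 1) (facet n ⟨0, by omega⟩) := by simp
      _ ≤ ∑ j, Measure.hausdorffMeasure ((n : ℝ) - 1) (Φ '' Tj j) := by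
          refine Finset.sum_le_sum fun j _ => ?_
          rw [facet_eq n ⟨0, by omega⟩ j]
          exact hpiece j
  -- cut down
  set μ : Measure (E n) := (Measure.hausdorffMeasure ((n : ℝ) - 1)).restrict (Φ '' T) with hμ
  have hμfin : IsFiniteMeasure μ := by
    refine ⟨?_⟩
    rw [hμ, Measure.restrict_apply_univ]
    exact lt_top_iff_ne_top.2 hfin
  have hμat : ∀ x, μ {x} = 0 := by
    intro x
    have hna := Measure.nullSingletonClass_hausdorff (E n) hpos
    refine le_antisymm ((Measure.restrict_apply_le _ _).trans ?_) zero_le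
    exact (measure_singleton x).le
  have hunc : ¬ Countable (E n) := by
    intro h
    have : Function.Injective (fun r : ℝ => (WithLp.toLp 2 (fun _ : Fin n => r) : E n)) := by
      intro r s hrs
      exact congrArg (fun x : E n => x ⟨0, by omega⟩) hrs
    exact not_countable_iff.2 (inferInstance : Uncountable ℝ) this.countable
  obtain ⟨A, hA, hAc⟩ := exists_cut hunc μ hμat
    ((n : ℝ≥0∞) * Measure.hausdorffMeasure ((n : ℝ) - 1) (facet n ⟨0, by omega⟩)) (by
      rw [hμ, Measure.restrict_apply_univ]; exact hlow)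
  refine ⟨A ∩ Φ '' T, ⟨fun x hx => hanti.1 x hx.2, fun x hx y hy => hanti.2 x hx.2 y hy.2⟩,
    fun j => ⟨(facet_pos_finite n j).1, (facet_pos_finite n j).2, ?_⟩⟩
  rw [hμ, Measure.restrict_apply hA] at hAc
  rw [hAc, facet_eq n ⟨0, by omega⟩ j]

end Pool.Agent.Results.MP_efb25f_co.MaximalAntichain
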